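import Pool.Agent.Helper34.EC.Defs
import Pool.Agent.Helper41.FatFinal

/-!
# EC-D3: general points of the plane from a germ of a curve

If the row space `rows` meets `(ζ - η(x), x ^ r) ^ m` trivially then there are `r` points over
`K(s)`, namely `(i s, η(i s))`, such that no nonzero polynomial in `rows` has multiplicity at
least `m` at all of them.
-/

set_option autoImplicit false

namespace Pool.Agent.Helper48.EC

open Polynomial Pool.Agent.Helper34.EC Pool.Agent.Helper41.Fat

/-! ### From multiplicity at a point of the curve to divisibility -/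

theorem coeff_sh_zero {k : Type} [Field k] (a : k) (f : k[X][X]) (j : ℕ) :
    (sh a 0 f).coeff j = taylor a (f.coeff j) := by
  simp [sh, coeff_map]

/-- Change of the order of the shifts. -/
theorem sh_taylor {k : Type} [Field k] (a b : k) (η : k[X]) (f : k[X][X]) :
    sh a 0 (taylor η f) = taylor (taylor a η - C b) (sh a b f) := by
  have key : (sh a 0).comp (taylorAlgHom η : k[X][X] →ₐ[k[X]] k[X][X]).toRingHom =
      ((taylorAlgHom (taylor a η - C b) : k[X][X] →ₐ[k[X]] k[X][X]).toRingHom).comp (sh a b) := by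
    apply Polynomial.ringHom_ext
    · intro p
      simp [sh]
    · simp [sh]
      ring
  have := congrArg (fun φ => φ f) key
  simpa using this

theorem dvd_taylor {k : Type} [Field k] {m : ℕ} {κ : k[X]} {g : k[X][X]}
    (hκ : (X : k[X]) ∣ κ) (hg : ∀ i j : ℕ, i + j < m → (g.coeff j).coeff i = 0) (j : ℕ) :
    (X : k[X]) ^ (m - j) ∣ (taylor κ g).coeff j := by
  rw [taylor_coeff, hasseDeriv_apply]
  rw [sum_def, eval_finsetSum]
  apply Finset.dvd_sum
  intro l _
  rw [eval_monomial]
  by_cases hl : j ≤ l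
  · have h1 : (X : k[X]) ^ (m - l) ∣ g.coeff l := by
      rw [X_pow_dvd_iff]
      intro i hi
      exact hg i l (by omega)
    have h2 : (X : k[X]) ^ (l - j) ∣ κ ^ (l - j) := pow_dvd_pow_of_dvd hκ _
    have h3 : (X : k[X]) ^ (m - j) ∣ X ^ (m - l) * X ^ (l - j) := by
      rw [← pow_add]
      exact pow_dvd_pow _ (by omega)
    exact h3.trans (mul_dvd_mul (h1.mul_left _) h2)
  · rw [Nat.choose_eq_zero_of_lt (by omega)]
    simp

/-- If `f` has multiplicity at least `m` at the point `(a, η a)` then
`(x - a) ^ (m - j)` divides the `j`-th coefficient of `f(x, ζ + η)`. -/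
theorem dvd_of_multGe {k : Type} [Field k] {m : ℕ} {a : k} {η : k[X]} {f : k[X][X]}
    (h : MultGe m a (η.eval a) f) (j : ℕ) : (X - C a) ^ (m - j) ∣ (taylor η f).coeff j := by
  have h1 : (X : k[X]) ∣ taylor a η - C (η.eval a) := by
    rw [X_dvd_iff, coeff_sub, taylor_coeff_zero, coeff_C_zero, sub_self]
  have h2 := dvd_taylor h1 h j
  rw [← sh_taylor, coeff_sh_zero] at h2
  obtain ⟨q, hq⟩ := h2
  have h3 := congrArg (taylorAlgHom (-a)) hq
  rw [map_mul, map_pow, taylorAlgHom_apply, taylorAlgHom_apply, taylor_taylor, neg_add_cancel,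
    taylor_zero, taylor_X] at h3
  refine ⟨taylorAlgHom (-a) q, ?_⟩
  rw [h3, C_neg, sub_eq_add_neg]

/-! ### Clearing denominators -/

theorem clear_poly {R S T : Type} [CommRing R] [IsDomain R] [CommRing S] [Algebra R S]
    [CommRing T] [Algebra R T] (φ : S →ₐ[R] T)
    (h : ∀ t : T, ∃ c : R, c ≠ 0 ∧ ∃ s : S, φ s = c • t) (f : T[X]) :
    ∃ c : R, c ≠ 0 ∧ ∃ F : S[X], mapAlgHom φ F = c • f := by
  induction f using Polynomial.induction_on' with
  | add p q hp hq =>
    obtain ⟨c, hc, F, hF⟩ := hp
    obtain ⟨d, hd, G, hG⟩ := hq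
    refine ⟨c * d, mul_ne_zero hc hd, d • F + c • G, ?_⟩
    rw [map_add, map_smul, map_smul, hF, hG, smul_add, smul_smul, smul_smul, mul_comm d c]
  | monomial n t =>
    obtain ⟨c, hc, s, hs⟩ := h t
    refine ⟨c, hc, monomial n s, ?_⟩
    rw [coe_mapAlgHom, map_monomial, smul_monomial]
    congr 1

/-- Clearing denominators, with a result not divisible by the parameter. -/
theorem exists_clear {K : Type} [Field K] (f : (RatFunc K)[X][X]) (hf : f ≠ 0) :
    ∃ (F : K[X][X][X]) (c : RatFunc K), c ≠ 0 ∧
      F.map (mapRingHom (algebraMap K[X] (RatFunc K))) = C (C c) * f ∧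
      ¬ (C (C X) : K[X][X][X]) ∣ F := by
  have h1 : ∀ t : RatFunc K, ∃ c : K[X], c ≠ 0 ∧ ∃ s : K[X],
      Algebra.ofId K[X] (RatFunc K) s = c • t := by
    intro t
    obtain ⟨⟨s, c⟩, h⟩ := IsLocalization.surj (nonZeroDivisors K[X]) t
    refine ⟨c, nonZeroDivisors.ne_zero c.2, s, ?_⟩
    rw [Algebra.smul_def, mul_comm]
    exact h.symm
  obtain ⟨c, hc, F₀, hF⟩ := clear_poly _ (clear_poly _ h1) f
  have hinj : Function.Injective (algebraMap K[X] (RatFunc K)) :=
    IsFractionRing.injective K[X] (RatFunc K)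
  have hF' : F₀.map (mapRingHom (algebraMap K[X] (RatFunc K))) =
      C (C (algebraMap K[X] (RatFunc K) c)) * f := by
    rw [Algebra.smul_def] at hF
    exact hF
  have hcc : algebraMap K[X] (RatFunc K) c ≠ 0 := fun h => hc (hinj (by rw [h, map_zero]))
  have hF0 : F₀ ≠ 0 := by
    rintro rfl
    rw [Polynomial.map_zero] at hF'
    have := mul_eq_zero.1 hF'.symm
    rw [C_eq_zero, C_eq_zero] at this
    tauto
  have hp : Prime (C (C X) : K[X][X][X]) := prime_C_iff.2 (prime_C_iff.2 prime_X)
  obtain ⟨n, F, hnd, hn⟩ := WfDvdMonoid.max_power_factor hF0 hp.irreducible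
  have hX : algebraMap K[X] (RatFunc K) X ≠ 0 := fun h => X_ne_zero (hinj (by rw [h, map_zero]))
  refine ⟨F, (algebraMap K[X] (RatFunc K) X ^ n)⁻¹ * algebraMap K[X] (RatFunc K) c,
    mul_ne_zero (inv_ne_zero (pow_ne_zero _ hX)) hcc, ?_, hnd⟩
  rw [C_mul, C_mul, mul_assoc, ← hF', hn, Polynomial.map_mul, Polynomial.map_pow, map_C,
    coe_mapRingHom, map_C, ← mul_assoc, ← C_pow, ← C_pow, ← C_mul, ← C_mul,
    inv_mul_cancel₀ (pow_ne_zero _ hX), C_1, C_1, one_mul]

/-! ### The main statement -/

theorem map_taylor_comm {R S : Type} [CommRing R] [CommRing S] (φ : R →+* S) (a : R) (f : R[X]) :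
    (taylor a f).map φ = taylor (φ a) (f.map φ) := by
  rw [taylor_apply, taylor_apply, Polynomial.map_comp]
  simp

theorem multGe_C_mul {k : Type} [Field k] {m : ℕ} {a b c : k} {f : k[X][X]}
    (h : MultGe m a b f) : MultGe m a b (C (C c) * f) := by
  have h0 : MultGe 0 a b (C (C c) : k[X][X]) := fun i j hij => absurd hij (Nat.not_lt_zero _)
  simpa using h0.mul h

/-- EC-D3 -/
theorem collide {K : Type} [Field K] [CharZero K] {r d m : ℕ}
    (h : Pool.Agent.Helper41.Fat.Good K r m (fun j => d + 1 - j) ((d + 2).choose 2)) :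
    ∃ P : Fin r → RatFunc K × RatFunc K, NoCurve (RatFunc K) r d m P := by
  have hsum : (d + 2).choose 2 = ∑ j ∈ Finset.range (d + 1), (d + 1 - j) := by
    rw [← Finset.sum_range_reflect]
    have h1 : ∀ j ∈ Finset.range (d + 1), d + 1 - (d + 1 - 1 - j) = j + 1 := by
      intro j hj
      rw [Finset.mem_range] at hj
      omega
    rw [Finset.sum_congr rfl h1, Finset.sum_add_distrib, Finset.sum_range_id,
      Finset.sum_const, Finset.card_range, smul_eq_mul, mul_one, ← Nat.choose_two_right,
      Nat.choose_succ_succ' (d + 1) 1, Nat.choose_one_right, add_comm]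
  rw [hsum] at h
  obtain ⟨η, hη⟩ := h.inj (d + 1) (fun c hc => by omega)
  let ι : K[X] →+* RatFunc K := algebraMap K[X] (RatFunc K)
  have hι : Function.Injective ι := IsFractionRing.injective K[X] (RatFunc K)
  let ev : K[X] →+* K := evalRingHom 0
  let ηs : K[X][X] := η.map C
  have hev : ηs.map ev = η := by
    rw [Polynomial.map_map]
    convert Polynomial.map_id (p := η)
    ext x
    simp [ev]
  let a : Fin r → K[X] := fun i => C ((i : ℕ) : K) * X
  have ha : Function.Injective a := by
    intro i j hij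
    have h1 := congrArg (fun p => p.coeff 1) hij
    simp only [a, coeff_C_mul, coeff_X_one, mul_one] at h1
    exact Fin.ext (Nat.cast_injective h1)
  refine ⟨fun i => (ι (a i), (ηs.map ι).eval (ι (a i))), fun f hf hfm => ?_⟩
  by_contra hf0
  obtain ⟨F, c, hc, hF, hnd⟩ := exists_clear f hf0
  apply hnd
  -- the special fibre vanishes
  have hspec : F.map (mapRingHom ev) = 0 := by
    apply hη
    · intro j
      rw [mem_degreeLT]
      have h1 := hf j
      rw [mem_degreeLT] at h1
      have h2 : (F.map (mapRingHom ι)).coeff j = C c * f.coeff j := by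
        rw [hF, coeff_C_mul]
      rw [coeff_map, coe_mapRingHom] at h2 ⊢
      refine lt_of_le_of_lt degree_map_le ?_
      rw [← degree_map_eq_of_injective hι, h2, degree_C_mul hc]
      exact h1
    · rw [Phi_eq_zero_iff]
      intro j hj
      have h3 : (taylor η (F.map (mapRingHom ev))).coeff j =
          ((taylor ηs F).coeff j).map ev := by
        have h4 := map_taylor_comm (mapRingHom ev) ηs F
        rw [coe_mapRingHom, hev] at h4
        rw [← h4, coeff_map, coe_mapRingHom]
      have h5 : (taylor (ηs.map ι) (F.map (mapRingHom ι))).coeff j =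
          ((taylor ηs F).coeff j).map ι := by
        have h4 := map_taylor_comm (mapRingHom ι) ηs F
        rw [coe_mapRingHom] at h4
        rw [← h4, coeff_map, coe_mapRingHom]
      have h6 : ∀ i : Fin r, (X - C (ι (a i))) ^ (m - j) ∣ ((taylor ηs F).coeff j).map ι := by
        intro i
        rw [← h5, hF]
        exact dvd_of_multGe (multGe_C_mul (hfm i)) j
      have h7 : ∏ i : Fin r, (X - C (ι (a i))) ^ (m - j) ∣ ((taylor ηs F).coeff j).map ι := by
        apply Finset.prod_dvd_of_coprime
        · intro i _ i' _ hii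
          apply IsCoprime.pow
          apply isCoprime_X_sub_C_of_isUnit_sub
          rw [isUnit_iff_ne_zero, sub_ne_zero]
          exact fun h => hii (ha (hι h))
        · intro i _
          exact h6 i
      have h8 : ∏ i : Fin r, (X - C (ι (a i))) ^ (m - j) =
          (∏ i : Fin r, (X - C (a i)) ^ (m - j)).map ι := by
        rw [Polynomial.map_prod]
        exact Finset.prod_congr rfl fun i _ => by simp
      rw [h8, Polynomial.map_dvd_map ι hι
        (monic_prod_of_monic _ _ fun i _ => (monic_X_sub_C _).pow _)] at h7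
      have h9 := Polynomial.map_dvd ev h7
      rw [← h3, Polynomial.map_prod] at h9
      have h10 : ∏ i : Fin r, ((X - C (a i)) ^ (m - j)).map ev = X ^ (r * (m - j)) := by
        have h11 : ∀ i : Fin r, ((X - C (a i)) ^ (m - j)).map ev = X ^ (m - j) := by
          intro i
          simp [ev, a]
        rw [Finset.prod_congr rfl fun i _ => h11 i, Finset.prod_const, Finset.card_univ,
          Fintype.card_fin, ← pow_mul, mul_comm]
      rw [h10] at h9
      exact h9
  rw [C_dvd_iff_dvd_coeff]
  intro j
  rw [C_dvd_iff_dvd_coeff]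
  intro i
  rw [X_dvd_iff, coeff_zero_eq_eval_zero]
  have h12 := congrArg (fun p => (p.coeff j).coeff i) hspec
  simpa [ev, coeff_map] using h12

end Pool.Agent.Helper48.EC
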